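import Pool.Agent.TH872.PF.A8

set_option autoImplicit false

namespace Pool.Agent.Results.MP_e8d2ce_nt.Constellations
open Finset Filter Topology
open Pool.Agent.TH872.PF (vv pal_vv pal_cop pal_par fund adm_half pb mem_pb cntOm mainOm OmC OmC_sub OmC_card_le OmC_card OmC_mem card_mul)

/-- the palindrome in base `b` that begins and ends with the digits `w` (read inwards), has the digits `u` (read
outwards) next to its middle digit `c` -/
def palin (b L : ℕ) (w : List ℕ) (u : Fin L → Fin b) (c : ℕ) : ℕ :=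
  Nat.ofDigits b (w ++ (List.ofFn fun i => (u i : ℕ)).reverse ++ [c] ++ (List.ofFn fun i => (u i : ℕ)) ++ w.reverse)

/-- no prime factor is at most `y` -/
def Rough (y n : ℕ) : Prop := ∀ p : ℕ, p.Prime → p ∣ n → y < p

/-- the number of residue classes modulo `p` that contain an element of `C` -/
def nu (C : Finset ℕ) (p : ℕ) : ℕ := (C.image (fun c => c % p)).card

/-- the expected number -/
noncomputable def expected (b L y : ℕ) (C : Finset ℕ) : ℝ :=
  (b : ℝ) ^ L * ∏ p ∈ (Icc 1 y).filter (fun p => p.Prime ∧ ¬ p ∣ 2 * b), (1 - (nu C p : ℝ) / p)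

open Classical in
/-- **Constellations of almost prime palindromes**: palindromes that differ only in the middle digit. -/
theorem result (b : ℕ) (hb : 2 ≤ b) (C : Finset ℕ) (hC : ∀ c ∈ C, c < b) (hC4 : C.card ≤ 4) (hodd : Odd b → ∀ c ∈ C, Odd c)
    (ε : ℝ) (hε : 0 < ε) (A : ℕ) : ∃ δ : ℝ, 0 < δ ∧ ∃ L₀ : ℕ, ∀ L : ℕ, L₀ ≤ L → ∀ (d : ℕ) (w : List ℕ), d.Coprime b → (∀ x ∈ d :: w, x < b) →
    ∀ y : ℕ, (y : ℝ) ≤ (b : ℝ) ^ (δ * L) →
    |(((univ : Finset (Fin L → Fin b)).filter (fun u => ∀ c ∈ C, Rough y (palin b L (d :: w) u c))).card : ℝ) - expected b L y C| ≤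
      ε * expected b L y C + (b : ℝ) ^ L / (L : ℝ) ^ A := by
  obtain ⟨δ, hδ, hev⟩ := fund hb (adm_half hb (κ := 49 / 100) (by norm_num) (by norm_num)) ε hε A 0
  rw [eventually_atTop] at hev
  obtain ⟨L0, hev⟩ := hev
  refine ⟨δ, hδ, L0, fun L hL d w hd _ y hy => ?_⟩
  obtain ⟨B, hB⟩ : ∃ B : ℕ, B = b ^ (L + w.length + 1) := ⟨_, rfl⟩
  obtain ⟨N0, hN0⟩ : ∃ N0 : ℕ, N0 = Nat.ofDigits b (d :: w) + b ^ (2 * L + w.length + 2) * Nat.ofDigits b (d :: w).reverse := ⟨_, rfl⟩
  have hpal : ∀ (u : Fin L → Fin b) (c : ℕ), palin b L (d :: w) u c = vv b L w.length N0 u + c * B := by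
    intro u c
    rw [hB, hN0]
    exact pal_vv b L w.length (d :: w) (by simp) u c
  have hpB : ∀ p ∈ pb b 1 y, ¬ p ∣ B := by
    intro p hp hd'
    obtain ⟨_, h1, h2, _⟩ := mem_pb.1 hp
    rw [hB] at hd'
    exact h2 ((h1.dvd_of_dvd_pow hd').mul_left 2)
  have h1 := hev L hL w.length N0 1 0 y (Nat.coprime_one_left _) le_rfl (by simp) hy (OmC (C.image (fun c => c * B))) (by
    intro p hp
    refine ⟨OmC_sub _ p (mem_pb.1 hp).2.1.pos, ?_⟩
    exact (OmC_card_le _ p).trans (card_image_le.trans hC4))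
  have h2 : mainOm b L 1 y (OmC (C.image (fun c => c * B))) = expected b L y C := by
    unfold mainOm expected
    rw [Nat.cast_one, div_one]
    congr 1
    have h3 : pb b 1 y = (Icc 1 y).filter (fun p => p.Prime ∧ ¬ p ∣ 2 * b) := by
      ext p
      rw [mem_pb, mem_filter, mem_Icc]
      constructor
      · rintro ⟨h4, h5, h6, _⟩
        exact ⟨⟨h5.one_le, h4⟩, h5, h6⟩
      · rintro ⟨⟨_, h4⟩, h5, h6⟩
        exact ⟨h4, h5, h6, h5.one_lt.ne' ∘ Nat.dvd_one.1⟩
    rw [← h3]
    apply prod_congr rfl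
    intro p hp
    rw [OmC_card _ p (mem_pb.1 hp).2.1.pos, card_mul C p B (mem_pb.1 hp).2.1 (hpB p hp)]
    rfl
  have h3 : cntOm b L w.length N0 1 0 y (OmC (C.image (fun c => c * B))) =
      (((univ : Finset (Fin L → Fin b)).filter (fun u => ∀ c ∈ C, Rough y (palin b L (d :: w) u c))).card : ℝ) := by
    unfold cntOm
    congr 2
    apply filter_congr
    intro u _
    constructor
    · rintro ⟨_, h4⟩ c hc p hp hpd
      by_contra hpy
      push Not at hpy
      by_cases hpb : p ∣ b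
      · have h5 := (pal_cop b L (d :: w) u c d w rfl 0 p hpb).1 (by rw [add_zero]; exact hpd)
        rw [add_zero] at h5
        exact hp.one_lt.ne' (Nat.eq_one_of_dvd_coprimes hd h5 hpb)
      · by_cases h2p : p = 2
        · subst h2p
          have hbo : b % 2 = 1 := by omega
          have h5 := pal_par b L hbo (d :: w) u c
          have h6 := Nat.odd_iff.1 (hodd (Nat.odd_iff.2 hbo) c hc)
          rw [h6] at h5
          have h7 : palin b L (d :: w) u c % 2 = 0 := Nat.mod_eq_zero_of_dvd hpd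
          have h8 : palin b L (d :: w) u c % 2 = 1 := h5
          omega
        · have hp2b : ¬ p ∣ 2 * b := by
            intro h5
            rcases (Nat.Prime.dvd_mul hp).1 h5 with h6 | h6
            · exact h2p ((Nat.prime_dvd_prime_iff_eq hp Nat.prime_two).1 h6)
            · exact hpb h6
          have h5 := (OmC_mem (C.image (fun c => c * B)) p (vv b L w.length N0 u) hp.pos).1
            (h4 p (mem_pb.2 ⟨hpy, hp, hp2b, hp.one_lt.ne' ∘ Nat.dvd_one.1⟩)) (c * B) (mem_image_of_mem _ hc)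
          rw [hpal] at hpd
          exact h5 hpd
    · intro h4
      refine ⟨Nat.modEq_one, fun p hp => ?_⟩
      obtain ⟨h5, h6, _, _⟩ := mem_pb.1 hp
      rw [OmC_mem _ p _ h6.pos]
      intro x hx hpx
      obtain ⟨c, hc, rfl⟩ := mem_image.1 hx
      have h7 := h4 c hc p h6 (by rw [hpal]; exact hpx)
      omega
  rw [h2, h3] at h1
  exact h1

end Pool.Agent.Results.MP_e8d2ce_nt.Constellations
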