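import Pool.Agent.TH872.PF.B3

set_option autoImplicit false

namespace Pool.Agent.Results.MP_e8d2ce_nt.PrimesUpperBound
open Finset Filter Topology
open Pool.Agent.TH872.PF (adm_half adm_large outer total)

/-- the palindrome in base `b` that begins and ends with the digits `w` (read inwards) and has the digits `u` (read
outwards) next to its middle digit `c` -/
def palin (b L : ℕ) (w : List ℕ) (u : Fin L → Fin b) (c : Fin b) : ℕ :=
  Nat.ofDigits b (w ++ (List.ofFn fun i => (u i : ℕ)).reverse ++ [(c : ℕ)] ++ (List.ofFn fun i => (u i : ℕ)) ++ w.reverse)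

/-- `b` for even `b`, `b - 1` for odd `b` -/
def cb (b : ℕ) : ℕ := if Even b then b else b - 1

open Classical in
/-- **An explicit upper bound for the number of palindromic primes in every base**, and a Brun-Titchmarsh inequality
for palindromes with prescribed outer digits in residue classes. -/
theorem result (b : ℕ) (hb : 2 ≤ b) (κ : ℝ) (h0 : 0 < κ)
    (hκ : κ < 1 / 2 ∨ (64 ≤ b ∧ (b : ℝ) ^ κ * (2 + 2 / Real.pi * Real.log b) < b)) (ε : ℝ) (hε : 0 < ε) :
    (∃ K₀ : ℕ, ∀ K : ℕ, K₀ ≤ K →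
      (((range (b ^ (2 * K + 1))).filter (fun n => b ^ (2 * K) ≤ n ∧ (Nat.digits b n).reverse = Nat.digits b n ∧ n.Prime)).card : ℝ) ≤
        (4 / κ + ε) * ((cb b : ℝ) * b ^ K / (2 * K * Real.log b))) ∧
    ∀ B : ℕ, ∃ L₀ : ℕ, ∀ L : ℕ, L₀ ≤ L → ∀ (d : ℕ) (w : List ℕ), d.Coprime b → (∀ x ∈ d :: w, x < b) →
      ∀ q a : ℕ, q.Coprime (2 * b) → 1 ≤ q → (q : ℝ) ≤ (L : ℝ) ^ B →
      (((univ : Finset ((Fin L → Fin b) × Fin b)).filter (fun x => (palin b L (d :: w) x.1 x.2).Prime ∧
        palin b L (d :: w) x.1 x.2 ≡ a [MOD q])).card : ℝ) ≤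
        (2 / κ + ε) * ((cb b : ℝ) * b ^ (L + 1) / ((b.totient : ℝ) * q.totient * (L * Real.log b))) := by
  have hadm : Pool.Agent.TH872.PF.Adm b κ := by
    rcases hκ with h1 | ⟨h1, h2⟩
    · exact adm_half hb h0 h1
    · exact adm_large h1 h0 h2
  constructor
  · obtain ⟨K0, h1⟩ := eventually_atTop.1 (total hb hadm ε hε)
    refine ⟨K0, fun K hK => ?_⟩
    refine le_trans (le_of_eq ?_) (h1 K hK)
    congr 2
    unfold Pool.Agent.H181R5.PBT9.palin
    rw [filter_filter]
    apply filter_congr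
    intro n _
    tauto
  · intro B
    obtain ⟨L0, h1⟩ := eventually_atTop.1 (outer hb hadm ε hε B)
    refine ⟨L0, fun L hL d w hd _ q a hq hq1 hqL => ?_⟩
    refine le_trans (le_of_eq ?_) (h1 L hL d w hd q a hq hq1 hqL)
    congr 2
    apply filter_congr
    intro x _
    exact and_comm

end Pool.Agent.Results.MP_e8d2ce_nt.PrimesUpperBound
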